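import Pool.Agent.H77.ArcSphere2

/-!
# Coverings of the plane and of the sphere by arcs that are not smooth almost everywhere

The leaves are `y = c + A(c) sin(2 π 2^m x) / (2 π)`, where `m = m(c)` is the level of the maximal
dyadic interval around `c` that misses a fixed closed set `K` of positive measure without rational
points, and `A(c)` is the distance from `c` to the ends of that interval (and `A = 0` on `K`). In the
plane they are cut into pieces over `[k, k+1)`; on the sphere the same family is used along the
meridians. All arcs are real-analytic, and in the regions considered there are no endpoints.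
-/

namespace Pool.Agent.Results.MP_85e89d_gt.NonSmooth

open Set MeasureTheory Pool.Agent.H77.Arcs

/-- Both for the plane and for the sphere there is a covering by non-overlapping differentiable
(even real-analytic) rectifiable arcs of length at least `δ > 0` such that the set of points which
have a neighbourhood free of endpoints, and at which the covering is not smooth, has positive
measure. -/
theorem result :
    (∃ (δ : ℝ) (𝓕 : Set (Set E2)), 0 < δ ∧ IsCovering univ δ 𝓕 ∧
      (∀ A ∈ 𝓕, IsAnalyticArc A) ∧ 0 < planeDefectMeasure 𝓕) ∧
    (∃ (δ : ℝ) (𝓕 : Set (Set E3)), 0 < δ ∧ IsCovering (Metric.sphere 0 1) δ 𝓕 ∧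
      (∀ A ∈ 𝓕, IsAnalyticArc A) ∧ 0 < sphereDefectMeasure 𝓕) :=
  ⟨plane_result, sphere_result⟩

end Pool.Agent.Results.MP_85e89d_gt.NonSmooth
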